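import Pool.Agent.H44.JoinD

open Pool.Agent.H44.Sok

theorem Pool.Agent.Results.MP_eb4d96_pr.Q2Compact.result (Δ : ℕ) (hΔ : 2 ≤ Δ) :
    ∀ a : ℝ, 0 ≤ a → a < 1 / ((Δ : ℝ) - 1) → ∃ D : Set ℂ, IsOpen D ∧ IsConnected D ∧
      (∀ t : ℝ, 0 ≤ t → t ≤ a → (t : ℂ) ∈ D) ∧ (∀ w ∈ D, 1 + w ≠ 0) ∧
      ∀ (V : Type) [Fintype V] [DecidableEq V] (G : SimpleGraph V) [DecidableRel G.Adj],
        G.maxDegree ≤ Δ → ∀ w : V → ℂ, (∀ x, w x ∈ D) → SprLtOne G w :=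
  (Pool.Agent.H44.JoinD.result Δ hΔ).2
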